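import Pool.Agent.Helper92.UB.Basic

/-!
# The base measure (module D1)
-/

set_option autoImplicit false

namespace Pool.Agent.Helper65.CG

open scoped Classical
open Pool.Agent.Helper65.CliqueGame

variable {n q m : ℕ}

namespace D1

/-- the number of Maker edges between `D` and `X` -/
theorem sum_dM_le (ℓ : Sym2 (Fin n) → ℕ) (D X : Finset (Fin n)) (hDX : Disjoint D X) :
    ∑ v ∈ X, dM ℓ D v ≤ ((join D X).filter (fun e => 2 ≤ ℓ e)).card := by
  have h1 : ∑ v ∈ X, dM ℓ D v =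
      (X.sigma (fun v => D.filter (fun u => 2 ≤ ℓ s(u, v)))).card := by
    rw [Finset.card_sigma]; rfl
  rw [h1]
  refine Finset.card_le_card_of_injOn (fun x => s(x.2, x.1)) ?_ ?_
  · rintro ⟨v, u⟩ h
    simp only [Finset.coe_sigma, Set.mem_sigma_iff, Finset.mem_coe, Finset.mem_filter] at h
    simp only [Finset.mem_coe, Finset.mem_filter]
    refine ⟨?_, h.2.2⟩
    unfold join
    rw [Finset.mem_image]
    exact ⟨(u, v), Finset.mem_product.mpr ⟨h.2.1, h.1⟩, rfl⟩
  · rintro ⟨v, u⟩ h ⟨v', u'⟩ h' he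
    simp only [Finset.coe_sigma, Set.mem_sigma_iff, Finset.mem_coe, Finset.mem_filter] at h h'
    simp only [Sym2.eq_iff] at he
    rcases he with ⟨h1, h2⟩ | ⟨h1, h2⟩
    · subst h1; subst h2; rfl
    · exfalso
      subst h1
      exact Finset.disjoint_left.mp hDX h.2.1 h'.1

end D1

theorem base (hm : 1 ≤ m) {ℓ : Sym2 (Fin n) → ℕ} (hℓ : Lab m ℓ) {c : ℝ} (hc : 0 ≤ c)
    (hB : Bet1 ℓ c) (D X : Finset (Fin n)) (hX : X.Nonempty) (hDX : Disjoint D X)
    (ha : Alive ℓ (join D X)) {t : ℝ} (ht : ∀ v ∈ X, t ≤ dM ℓ D v) :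
    (X.card : ℝ) ≤ D.card * Lg n + c ∨
      lb X.card ≤ Lg n - t / (m / Real.logb 2 ((m : ℝ) + 1)) + 3 := by
  by_cases hbig : (X.card : ℝ) ≤ D.card * Lg n + c
  · exact Or.inl hbig
  right
  push Not at hbig
  have hX0 : (0 : ℝ) < X.card := by exact_mod_cast hX.card_pos
  have h1 := hB D X hX ha
  have h2 := ga_lin hm hℓ (join D X)
  have h3 : t * X.card ≤ (((join D X).filter (fun e => 2 ≤ ℓ e)).card : ℝ) := by
    have h4 : (((∑ v ∈ X, dM ℓ D v : ℕ)) : ℝ) ≤
        (((join D X).filter (fun e => 2 ≤ ℓ e)).card : ℝ) := by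
      exact_mod_cast D1.sum_dM_le ℓ D X hDX
    have h5 : t * X.card ≤ ((∑ v ∈ X, dM ℓ D v : ℕ) : ℝ) := by
      push_cast
      calc t * (X.card : ℝ) = ∑ v ∈ X, t := by rw [Finset.sum_const, nsmul_eq_mul]; ring
        _ ≤ ∑ v ∈ X, (dM ℓ D v : ℝ) := Finset.sum_le_sum ht
    exact h5.trans h4
  have hm0 : (0 : ℝ) < m := by exact_mod_cast hm
  have hlog : 0 < Real.logb 2 ((m : ℝ) + 1) :=
    Real.logb_pos (by norm_num) (by linarith)
  have h6 : t / (m / Real.logb 2 ((m : ℝ) + 1)) * X.card ≤ ga ℓ (join D X) := by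
    have h7 : t / (m / Real.logb 2 ((m : ℝ) + 1)) * X.card =
        Real.logb 2 ((m : ℝ) + 1) / m * (t * X.card) := by
      field_simp
    rw [h7]
    exact (mul_le_mul_of_nonneg_left h3 (by positivity)).trans h2
  have h8 : t / (m / Real.logb 2 ((m : ℝ) + 1)) * X.card <
      (Lg n - lb X.card + 3) * X.card := by
    calc t / (m / Real.logb 2 ((m : ℝ) + 1)) * X.card
        ≤ D.card * Lg n + X.card * (Lg n - lb X.card + 2) + c := h6.trans h1
      _ < (Lg n - lb X.card + 3) * X.card := by linarith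
  have h9 := lt_of_mul_lt_mul_right h8 hX0.le
  linarith

end Pool.Agent.Helper65.CG
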